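import Mathlib

set_option autoImplicit false

/-!
# The order of `1 + x + x^(2^r) + x^(2^r+2)` over `𝔽₂` is `4^r + 2^r + 1`

With `n = 2^r` the polynomial is `(1 + x)(1 + x^n + x^(n+1))`, and the roots of the second factor
in the field `L` with `n^3` elements are the `γ / γ^n` with `γ + γ^n + γ^(n^2) = 0`. Every nonzero
element of `L` is a quotient of two such `γ`, hence the roots generate the group of order
`n^2 + n + 1`.
-/

namespace Pool.Agent.Results.MP_9cbaed_nt.ExactOrder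

open Polynomial

section Field

variable (L : Type) [Field L] [Fintype L] [CharP L 2] (r : ℕ)

/-- the relative trace `x + x^n + x^(n^2)` -/
def tr (x : L) : L := x + x ^ (2 ^ r) + x ^ (2 ^ r * 2 ^ r)

omit [Fintype L] in
theorem tr_sub (x y : L) : tr L r (x - y) = tr L r x - tr L r y := by
  unfold tr
  rw [sub_pow_char_pow, ← pow_add, sub_pow_char_pow]
  ring

omit [Fintype L] in
theorem tr_fix (hL : ∀ x : L, x ^ (2 ^ r * (2 ^ r * 2 ^ r)) = x) (x : L) :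
    (tr L r x) ^ (2 ^ r) = tr L r x := by
  unfold tr
  rw [add_pow_char_pow, add_pow_char_pow, ← pow_mul, ← pow_mul,
    show 2 ^ r * 2 ^ r * 2 ^ r = 2 ^ r * (2 ^ r * 2 ^ r) by ring, hL]
  ring

/-- every nonzero element is a quotient of two nonzero elements of trace zero -/
theorem exists_quot (hr : 1 ≤ r) (hcard : Fintype.card L = 2 ^ r * (2 ^ r * 2 ^ r)) (δ : L) :
    ∃ w : L, w ≠ 0 ∧ tr L r w = 0 ∧ tr L r (δ * w) = 0 := by
  classical
  have hL : ∀ x : L, x ^ (2 ^ r * (2 ^ r * 2 ^ r)) = x := by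
    intro x
    rw [← hcard]
    exact FiniteField.pow_card x
  set n := 2 ^ r with hn
  have hn2 : 2 ≤ n := by
    calc 2 = 2 ^ 1 := by norm_num
      _ ≤ 2 ^ r := Nat.pow_le_pow_right (by norm_num) hr
  set K : Finset L := Finset.univ.filter (fun x => x ^ n = x) with hK
  have hKcard : K.card ≤ n := by
    have hp : (X ^ n - X : L[X]) ≠ 0 := FiniteField.X_pow_card_sub_X_ne_zero L (by omega)
    have hdeg : (X ^ n - X : L[X]).natDegree = n :=
      FiniteField.X_pow_card_sub_X_natDegree_eq L (by omega)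
    have hsub : K ⊆ (X ^ n - X : L[X]).roots.toFinset := by
      intro x hx
      rw [hK, Finset.mem_filter] at hx
      rw [Multiset.mem_toFinset, mem_roots hp]
      simp [hx.2]
    calc K.card ≤ (X ^ n - X : L[X]).roots.toFinset.card := Finset.card_le_card hsub
      _ ≤ Multiset.card (X ^ n - X : L[X]).roots := Multiset.toFinset_card_le _
      _ ≤ (X ^ n - X : L[X]).natDegree := card_roots' _
      _ = n := hdeg
  have hlt : (K ×ˢ K).card < (Finset.univ : Finset L).card := by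
    rw [Finset.card_product, Finset.card_univ, hcard]
    calc K.card * K.card ≤ n * n := Nat.mul_le_mul hKcard hKcard
      _ < n * (n * n) := by nlinarith [Nat.mul_pos (show 0 < n by omega) (show 0 < n by omega)]
  obtain ⟨a, -, b, -, hab, hf⟩ := Finset.exists_ne_map_eq_of_card_lt_of_maps_to hlt
    (f := fun x : L => (tr L r x, tr L r (δ * x))) (by
      intro x _
      simp only [Finset.coe_product, Set.mem_prod, Finset.mem_coe, hK, Finset.mem_filter,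
        Finset.mem_univ, true_and]
      exact ⟨tr_fix L r hL x, tr_fix L r hL _⟩)
  simp only [Prod.mk.injEq] at hf
  refine ⟨a - b, sub_ne_zero.2 hab, ?_, ?_⟩
  · rw [tr_sub, hf.1, sub_self]
  · rw [mul_sub, tr_sub, hf.2, sub_self]

/-- If `(γ / γ^n)^e = 1` for all nonzero `γ` of trace zero, then `n^2 + n + 1` divides `e`. -/
theorem dvd_of_forall (hr : 1 ≤ r) (hcard : Fintype.card L = 2 ^ r * (2 ^ r * 2 ^ r)) (e : ℕ)
    (h : ∀ w : L, w ≠ 0 → tr L r w = 0 → (w ^ e) ^ (2 ^ r) = w ^ e) :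
    (4 ^ r + 2 ^ r + 1) ∣ e := by
  classical
  set n := 2 ^ r with hn
  have hn2 : 2 ≤ n := by
    calc 2 = 2 ^ 1 := by norm_num
      _ ≤ 2 ^ r := Nat.pow_le_pow_right (by norm_num) hr
  have h4 : 4 ^ r = n * n := by
    rw [hn, ← mul_pow]
    norm_num
  have key : ∀ δ : Lˣ, δ ^ (e * (n - 1)) = 1 := by
    intro δ
    obtain ⟨w, hw0, hw1, hw2⟩ := exists_quot L r hr hcard (δ : L)
    have h1 := h w hw0 hw1
    have h2 := h (δ * w) (mul_ne_zero δ.ne_zero hw0) hw2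
    rw [mul_pow, mul_pow, h1] at h2
    have h3 : ((δ : L) ^ e) ^ n = (δ : L) ^ e :=
      mul_right_cancel₀ (pow_ne_zero e hw0) h2
    have h5 : (δ ^ e) ^ n = δ ^ e := by
      ext
      push_cast
      exact h3
    have h6 : (δ ^ e) ^ (n - 1) * δ ^ e = 1 * δ ^ e := by
      rw [← pow_succ, Nat.sub_add_cancel (by omega), h5, one_mul]
    rw [pow_mul]
    exact mul_right_cancel h6
  have h7 : Monoid.exponent Lˣ ∣ e * (n - 1) := Monoid.exponent_dvd_of_forall_pow_eq_one key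
  rw [IsCyclic.exponent_eq_card, Nat.card_eq_fintype_card, Fintype.card_units, hcard] at h7
  have h8 : n * (n * n) - 1 = (n * n + n + 1) * (n - 1) := by
    obtain ⟨m, hm⟩ : ∃ m, n = m + 1 := ⟨n - 1, by omega⟩
    rw [hm, Nat.add_sub_cancel]
    apply Nat.sub_eq_of_eq_add
    ring
  rw [h8] at h7
  rw [h4]
  exact Nat.dvd_of_mul_dvd_mul_right (by omega) h7

end Field

/-- The condition `p ∣ 1 + X ^ e` gives `x ^ e = 1` for every root `x` of `p`. -/
theorem root_pow (L : Type) [Field L] [Algebra (ZMod 2) L] (p : (ZMod 2)[X]) (e : ℕ)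
    (h : p ∣ 1 + X ^ e) (x : L) (hx : aeval x p = 0) : x ^ e = 1 := by
  have hc : CharP L 2 := charP_of_injective_algebraMap (algebraMap (ZMod 2) L).injective 2
  obtain ⟨q, hq⟩ := h
  have h1 := congrArg (aeval x) hq
  simp only [map_add, map_one, map_pow, aeval_X, map_mul, hx, zero_mul] at h1
  have h2 : x ^ e = -1 := by linear_combination h1
  rw [h2, CharTwo.neg_eq]

theorem two_eq_zero' : (2 : (ZMod 2)[X]) = 0 := CharTwo.two_eq_zero

/-- `1 + X^N ∣ 1 + X^e` when `N ∣ e` -/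
theorem one_add_dvd (N e : ℕ) (h : N ∣ e) : (1 + X ^ N : (ZMod 2)[X]) ∣ 1 + X ^ e := by
  obtain ⟨k, rfl⟩ := h
  have h1 : ∀ m : ℕ, (1 + X ^ m : (ZMod 2)[X]) = X ^ m - 1 := by
    intro m
    linear_combination (two_eq_zero')
  rw [h1, h1, pow_mul]
  exact sub_one_dvd_pow_sub_one (X ^ N : (ZMod 2)[X]) k


/-- `1 + x^n + x^(n+1)` divides `1 + x^(n^2+n+1)` for `n = 2^r` -/
theorem dvd_one (r : ℕ) :
    (1 + X ^ (2 ^ r) + X ^ (2 ^ r + 1) : (ZMod 2)[X]) ∣ 1 + X ^ (4 ^ r + 2 ^ r + 1) := by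
  have h4 : 4 ^ r = 2 ^ r * 2 ^ r := by
    rw [← mul_pow]
    norm_num
  have hg : (1 + X ^ (2 ^ r) + X ^ (2 ^ r + 1) : (ZMod 2)[X]) ^ (2 ^ r)
      = 1 + X ^ (2 ^ r * 2 ^ r) + X ^ ((2 ^ r + 1) * 2 ^ r) := by
    rw [add_pow_char_pow, add_pow_char_pow, one_pow, ← pow_mul, ← pow_mul]
  have hpos : 2 ^ r = (2 ^ r - 1) + 1 := by
    have := Nat.one_le_two_pow (n := r)
    omega
  rw [h4]
  refine ⟨X ^ (2 ^ r * 2 ^ r) + (1 + X ^ (2 ^ r) + X ^ (2 ^ r + 1)) ^ (2 ^ r - 1), ?_⟩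
  have h1 : (1 + X ^ (2 ^ r) + X ^ (2 ^ r + 1) : (ZMod 2)[X])
      * (1 + X ^ (2 ^ r) + X ^ (2 ^ r + 1)) ^ (2 ^ r - 1)
      = 1 + X ^ (2 ^ r * 2 ^ r) + X ^ ((2 ^ r + 1) * 2 ^ r) := by
    rw [← pow_succ', ← hpos, hg]
  rw [mul_add, h1]
  generalize 2 ^ r = n
  linear_combination (-(X ^ (n * n) + X ^ ((n + 1) * n)) : (ZMod 2)[X]) * two_eq_zero'

/-- `1 + x + x^(n+1)` divides `1 + x^(n^2+n+1)` for `n = 2^r` -/
theorem dvd_two (r : ℕ) :
    (1 + X + X ^ (2 ^ r + 1) : (ZMod 2)[X]) ∣ 1 + X ^ (4 ^ r + 2 ^ r + 1) := by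
  have h4 : 4 ^ r = 2 ^ r * 2 ^ r := by
    rw [← mul_pow]
    norm_num
  have hg : (1 + X + X ^ (2 ^ r + 1) : (ZMod 2)[X]) ^ (2 ^ r)
      = 1 + X ^ (2 ^ r) + X ^ ((2 ^ r + 1) * 2 ^ r) := by
    rw [add_pow_char_pow, add_pow_char_pow, one_pow, ← pow_mul]
  have hpos : 2 ^ r = (2 ^ r - 1) + 1 := by
    have := Nat.one_le_two_pow (n := r)
    omega
  rw [h4]
  refine ⟨1 + X * (1 + X + X ^ (2 ^ r + 1)) ^ (2 ^ r - 1), ?_⟩
  have h1 : (1 + X + X ^ (2 ^ r + 1) : (ZMod 2)[X])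
      * (X * (1 + X + X ^ (2 ^ r + 1)) ^ (2 ^ r - 1))
      = X * (1 + X ^ (2 ^ r) + X ^ ((2 ^ r + 1) * 2 ^ r)) := by
    rw [mul_left_comm, ← pow_succ', ← hpos, hg]
  rw [mul_add, h1]
  generalize 2 ^ r = n
  linear_combination (-(X + X ^ (n + 1)) : (ZMod 2)[X]) * two_eq_zero'

/-- the field with `2^(3r)` elements satisfies the hypotheses -/
theorem card_field (r : ℕ) (hr : 1 ≤ r) [Fintype (GaloisField 2 (3 * r))] :
    Fintype.card (GaloisField 2 (3 * r)) = 2 ^ r * (2 ^ r * 2 ^ r) := by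
  rw [← Nat.card_eq_fintype_card, GaloisField.card 2 (3 * r) (by omega)]
  ring

theorem necess_one (r : ℕ) (hr : 1 ≤ r) (e : ℕ)
    (h : (1 + X ^ (2 ^ r) + X ^ (2 ^ r + 1) : (ZMod 2)[X]) ∣ 1 + X ^ e) :
    (4 ^ r + 2 ^ r + 1) ∣ e := by
  classical
  have : Fintype (GaloisField 2 (3 * r)) := Fintype.ofFinite _
  refine dvd_of_forall (GaloisField 2 (3 * r)) r hr (card_field r hr) e ?_
  intro w hw htr
  have hn : w ^ (2 ^ r) ≠ 0 := pow_ne_zero _ hw
  have hnn : w ^ (2 ^ r * 2 ^ r) ≠ 0 := pow_ne_zero _ hw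
  have hroot : aeval (w / w ^ (2 ^ r)) (1 + X ^ (2 ^ r) + X ^ (2 ^ r + 1) : (ZMod 2)[X]) = 0 := by
    simp only [map_add, map_one, map_pow, aeval_X]
    rw [pow_succ, div_pow, ← pow_mul]
    unfold tr at htr
    field_simp
    linear_combination htr
  have h1 := root_pow _ _ e h _ hroot
  rw [div_pow, div_eq_one_iff_eq (pow_ne_zero _ hn)] at h1
  have h2 : (w ^ e) ^ (2 ^ r) = (w ^ (2 ^ r)) ^ e := by
    rw [← pow_mul, ← pow_mul, Nat.mul_comm e]
  rw [h2]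
  exact h1.symm

theorem necess_two (r : ℕ) (hr : 1 ≤ r) (e : ℕ)
    (h : (1 + X + X ^ (2 ^ r + 1) : (ZMod 2)[X]) ∣ 1 + X ^ e) :
    (4 ^ r + 2 ^ r + 1) ∣ e := by
  classical
  have : Fintype (GaloisField 2 (3 * r)) := Fintype.ofFinite _
  refine dvd_of_forall (GaloisField 2 (3 * r)) r hr (card_field r hr) e ?_
  intro w hw htr
  have hn : w ^ (2 ^ r) ≠ 0 := pow_ne_zero _ hw
  have hnn : w ^ (2 ^ r * 2 ^ r) ≠ 0 := pow_ne_zero _ hw
  have hroot : aeval (w ^ (2 ^ r) / w) (1 + X + X ^ (2 ^ r + 1) : (ZMod 2)[X]) = 0 := by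
    simp only [map_add, map_one, map_pow, aeval_X]
    rw [pow_succ, div_pow, ← pow_mul]
    unfold tr at htr
    field_simp
    linear_combination htr
  have h1 := root_pow _ _ e h _ hroot
  rw [div_pow, div_eq_one_iff_eq (pow_ne_zero _ hw)] at h1
  have h2 : (w ^ e) ^ (2 ^ r) = (w ^ (2 ^ r)) ^ e := by
    rw [← pow_mul, ← pow_mul, Nat.mul_comm e]
  rw [h2]
  exact h1

theorem factor_one (n : ℕ) : (1 + X + X ^ n + X ^ (n + 2) : (ZMod 2)[X])
    = (1 + X) * (1 + X ^ n + X ^ (n + 1)) := by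
  linear_combination (-(X ^ (n + 1)) : (ZMod 2)[X]) * two_eq_zero'

theorem factor_two (n : ℕ) : (1 + X ^ 2 + X ^ (n + 1) + X ^ (n + 2) : (ZMod 2)[X])
    = (1 + X) * (1 + X + X ^ (n + 1)) := by
  linear_combination (-X : (ZMod 2)[X]) * two_eq_zero'

theorem coprime_one (n : ℕ) : IsCoprime (1 + X : (ZMod 2)[X]) (1 + X ^ n + X ^ (n + 1)) := by
  refine ⟨X ^ n, 1, ?_⟩
  linear_combination (X ^ n + X ^ (n + 1) : (ZMod 2)[X]) * two_eq_zero'

theorem coprime_two (n : ℕ) : IsCoprime (1 + X : (ZMod 2)[X]) (1 + X + X ^ (n + 1)) := by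
  obtain ⟨q, hq⟩ : (1 + X : (ZMod 2)[X]) ∣ 1 + X ^ n := by
    have := one_add_dvd 1 n (one_dvd n)
    simpa using this
  refine ⟨X * q, 1, ?_⟩
  linear_combination (-X : (ZMod 2)[X]) * hq + (X + X ^ (n + 1) : (ZMod 2)[X]) * two_eq_zero'

/-- The set of positive `e` such that `f` divides `1 + x^e`; its least element is the order of `f`. -/
def exponents (f : (ZMod 2)[X]) : Set ℕ := {e : ℕ | 0 < e ∧ f ∣ 1 + X ^ e}

/-- **Theorem.** For every `r ≥ 1`, the order of `1 + x + x^(2^r) + x^(2^r+2)` over `𝔽₂`, and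
the order of its reciprocal `1 + x^2 + x^(2^r+1) + x^(2^r+2)`, is exactly `4^r + 2^r + 1`. -/
theorem result (r : ℕ) (hr : 1 ≤ r) :
    IsLeast (exponents (1 + X + X ^ (2 ^ r) + X ^ (2 ^ r + 2))) (4 ^ r + 2 ^ r + 1) ∧
    IsLeast (exponents (1 + X ^ 2 + X ^ (2 ^ r + 1) + X ^ (2 ^ r + 2))) (4 ^ r + 2 ^ r + 1) := by
  have hX : (1 + X : (ZMod 2)[X]) ∣ 1 + X ^ (4 ^ r + 2 ^ r + 1) := by
    have := one_add_dvd 1 (4 ^ r + 2 ^ r + 1) (one_dvd _)
    simpa using this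
  refine ⟨⟨⟨by positivity, ?_⟩, ?_⟩, ⟨⟨by positivity, ?_⟩, ?_⟩⟩
  · rw [factor_one]
    exact (coprime_one _).mul_dvd hX (dvd_one r)
  · rintro e ⟨he, hd⟩
    rw [factor_one] at hd
    exact Nat.le_of_dvd he (necess_one r hr e (dvd_of_mul_left_dvd hd))
  · rw [factor_two]
    exact (coprime_two _).mul_dvd hX (dvd_two r)
  · rintro e ⟨he, hd⟩
    rw [factor_two] at hd
    exact Nat.le_of_dvd he (necess_two r hr e (dvd_of_mul_left_dvd hd))

end Pool.Agent.Results.MP_9cbaed_nt.ExactOrder
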